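import Mathlib

set_option linter.unusedSectionVars false

namespace Pool.Agent.H36.ParityLA

open Matrix Finset

variable {ι : Type*} [Fintype ι] [DecidableEq ι]

/-- extension of a vector on `ι` to `Option ι` by zero at `none`. -/
def ext0 (s : ι → ZMod 2) : Option ι → ZMod 2 := fun o => o.elim 0 s

/-- the determinant of `B` with the diagonal of the `ι`-part shifted by `s`. -/
def g (B : Matrix (Option ι) (Option ι) (ZMod 2)) (s : ι → ZMod 2) : ZMod 2 :=
  (B + Matrix.diagonal (ext0 s)).det

/-- flip the `u`-th coordinate. -/
def flip (u : ι) (s : ι → ZMod 2) : ι → ZMod 2 := s + Pi.single u 1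

lemma flip_flip (u : ι) (s : ι → ZMod 2) : flip u (flip u s) = s := by
  ext i
  simp only [flip, Pi.add_apply, add_assoc]
  have : (Pi.single u 1 : ι → ZMod 2) i + (Pi.single u 1 : ι → ZMod 2) i = 0 := CharTwo.add_self_eq_zero _
  rw [this, add_zero]

lemma flip_ne (u : ι) (s : ι → ZMod 2) : flip u s ≠ s := by
  intro h
  have := congrFun h u
  simp [flip] at this

/-- sign of a 0/1 vector. -/
def sg (s : ι → ZMod 2) : ℤ := ∏ i, (if s i = 0 then 1 else -1)

lemma zmod2_cases (a : ZMod 2) : a = 0 ∨ a = 1 := by
  revert a; decide

lemma sg_flip (u : ι) (s : ι → ZMod 2) : sg (flip u s) = - sg s := by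
  unfold sg
  rw [← Finset.mul_prod_erase _ _ (Finset.mem_univ u), ← Finset.mul_prod_erase (a := u) _ _ (Finset.mem_univ u)]
  have h1 : ∏ x ∈ univ.erase u, (if flip u s x = 0 then (1:ℤ) else -1)
      = ∏ x ∈ univ.erase u, (if s x = 0 then (1:ℤ) else -1) := by
    apply Finset.prod_congr rfl
    intro x hx
    have : x ≠ u := Finset.ne_of_mem_erase hx
    simp [flip, this]
  rw [h1]
  have h2 : (if flip u s u = 0 then (1:ℤ) else -1) = - (if s u = 0 then (1:ℤ) else -1) := by
    rcases zmod2_cases (s u) with h | h
    · simp [flip, h]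
    · have : (1 + 1 : ZMod 2) = 0 := by decide
      simp [flip, h, this]
  rw [h2]; ring

/-- lift of `ZMod 2` to the integers. -/
def lift (a : ZMod 2) : ℤ := if a = 0 then 0 else 1

lemma lift_add (a b : ZMod 2) : lift (a + b) - lift a = lift b * (1 - 2 * lift a) := by
  revert a b; decide

lemma lift_mul (a b : ZMod 2) : lift a * lift b = lift (a * b) := by
  revert a b; decide

lemma cast_lift (a : ZMod 2) : ((lift a : ℤ) : ZMod 2) = a := by
  revert a; decide

lemma cast_sg (s : ι → ZMod 2) : ((sg s : ℤ) : ZMod 2) = 1 := by
  unfold sg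
  rw [Int.cast_prod]
  apply Finset.prod_eq_one
  intro i _
  split_ifs
  · simp
  · simp only [Int.cast_neg, Int.cast_one]; decide

/-- the sum over all `s` of `det (B + diag s)` vanishes. -/
lemma sum_g (B : Matrix (Option ι) (Option ι) (ZMod 2)) (hB : B none none = 0) :
    ∑ s, g B s = 0 := by
  unfold g
  simp only [Matrix.det_apply]
  rw [Finset.sum_comm]
  apply Finset.sum_eq_zero
  intro σ _
  rw [← Finset.smul_sum]
  by_cases hσ : σ = 1
  · subst hσ
    have : ∀ s : ι → ZMod 2, ∏ i, (B + Matrix.diagonal (ext0 s)) ((1 : Equiv.Perm (Option ι)) i) i = 0 := by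
      intro s
      apply Finset.prod_eq_zero (Finset.mem_univ none)
      simp [hB, ext0]
    rw [Finset.sum_congr rfl (fun s _ => this s)]
    simp
  · have : ∃ a : ι, σ (some a) ≠ some a := by
      by_contra hcon
      push Not at hcon
      apply hσ
      ext1 o
      cases o with
      | some a => simp [hcon a]
      | none =>
        by_contra hne
        have h1 : σ none ≠ none := by simpa using hne
        obtain ⟨b, hb⟩ := Option.ne_none_iff_exists'.mp h1
        have := σ.injective (hb.trans (hcon b).symm)
        simp at this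
    obtain ⟨a, ha⟩ := this
    have hz : ∑ s : ι → ZMod 2, ∏ i, (B + Matrix.diagonal (ext0 s)) (σ i) i = 0 := by
      apply Finset.sum_involution (fun s _ => flip a s)
      · intro s _
        have : ∏ i, (B + Matrix.diagonal (ext0 (flip a s))) (σ i) i
            = ∏ i, (B + Matrix.diagonal (ext0 s)) (σ i) i := by
          apply Finset.prod_congr rfl
          intro i _
          simp only [Matrix.add_apply]
          congr 1
          by_cases hi : σ i = i
          · rw [hi, Matrix.diagonal_apply_eq, Matrix.diagonal_apply_eq]
            cases i with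
            | none => rfl
            | some b =>
              have hb : b ≠ a := by
                rintro rfl
                exact ha hi
              simp [ext0, flip, hb]
          · rw [Matrix.diagonal_apply_ne _ hi, Matrix.diagonal_apply_ne _ hi]
        rw [this]
        exact CharTwo.add_self_eq_zero _
      · intro s _ _
        exact flip_ne a s
      · intro s _
        exact Finset.mem_univ _
      · intro s _
        exact flip_flip a s
    rw [hz, smul_zero]

/-- symmetric pair of unit entries. -/
def T (u v : Option ι) : Matrix (Option ι) (Option ι) (ZMod 2) :=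
  Matrix.single u v 1 + Matrix.single v u 1

/-- the minor obtained by replacing rows `u`, `v` by unit rows. -/
def al (B : Matrix (Option ι) (Option ι) (ZMod 2)) (u v : ι) (s : ι → ZMod 2) : ZMod 2 :=
  (((B + Matrix.diagonal (ext0 s)).updateRow (some u) (Pi.single (some u) 1)).updateRow (some v)
    (Pi.single (some v) 1)).det

lemma toggle_aux {κ : Type*} [Fintype κ] [DecidableEq κ] (M : Matrix κ κ (ZMod 2)) (hM : M.IsSymm)
    (u v : κ) (huv : u ≠ v) :
    (M + (Matrix.single u v 1 + Matrix.single v u 1)).det = M.det +
      ((M.updateRow u (Pi.single u 1)).updateRow v (Pi.single v 1)).det := by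
  have e1 : M + (Matrix.single u v 1 + Matrix.single v u 1) =
      (M.updateRow u (M u + Pi.single v 1)).updateRow v (M v + Pi.single u 1) := by
    ext i j
    by_cases hi : i = v
    · subst hi
      rw [Matrix.updateRow_self]
      simp [Matrix.single_apply, huv, Pi.single_apply, eq_comm]
    · rw [Matrix.updateRow_ne hi]
      by_cases hi2 : i = u
      · subst hi2
        rw [Matrix.updateRow_self]
        simp [Matrix.single_apply, Ne.symm huv, Pi.single_apply, eq_comm]
      · rw [Matrix.updateRow_ne hi2]
        simp [Ne.symm hi, Ne.symm hi2]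
  have e2 : (M.updateRow u (M u + Pi.single v 1)).updateRow v (M v) = M.updateRow u (M u + Pi.single v 1) := by
    ext i j
    by_cases hi : i = v
    · subst hi
      rw [Matrix.updateRow_self, Matrix.updateRow_ne (Ne.symm huv)]
    · rw [Matrix.updateRow_ne hi]
  have e3 : (M.updateRow u (M u + Pi.single v 1)).updateRow v (Pi.single u 1)
     = (M.updateRow v (Pi.single u 1)).updateRow u (M u + Pi.single v 1) := by
    ext i j
    by_cases hi : i = v
    · subst hi
      rw [Matrix.updateRow_self, Matrix.updateRow_ne (Ne.symm huv), Matrix.updateRow_self]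
    · rw [Matrix.updateRow_ne hi]
      by_cases hi2 : i = u
      · subst hi2
        rw [Matrix.updateRow_self, Matrix.updateRow_self]
      · rw [Matrix.updateRow_ne hi2, Matrix.updateRow_ne hi2, Matrix.updateRow_ne hi]
  have e4 : (M.updateRow v (Pi.single u 1)).updateRow u (M u) = M.updateRow v (Pi.single u 1) := by
    ext i j
    by_cases hi : i = u
    · subst hi
      rw [Matrix.updateRow_self, Matrix.updateRow_ne huv]
    · rw [Matrix.updateRow_ne hi]
  have e5 : M.updateRow u (M u) = M := Matrix.updateRow_eq_self M u
  rw [e1, Matrix.det_updateRow_add, e2, e3, Matrix.det_updateRow_add, Matrix.det_updateRow_add, e4, e5]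
  have h1 : (M.updateRow u (Pi.single v 1)).det = M.adjugate v u := (Matrix.adjugate_apply M v u).symm
  have h2 : (M.updateRow v (Pi.single u 1)).det = M.adjugate u v := (Matrix.adjugate_apply M u v).symm
  have h3 : M.adjugate v u = M.adjugate u v := by
    have := congrFun (congrFun (Matrix.adjugate_transpose M) u) v
    rw [Matrix.transpose_apply, hM.eq] at this
    exact this
  have h4 : ((M.updateRow v (Pi.single u 1)).updateRow u (Pi.single v 1)).det =
      ((M.updateRow u (Pi.single u 1)).updateRow v (Pi.single v 1)).det := by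
    have : ((M.updateRow v (Pi.single u 1)).updateRow u (Pi.single v 1)) =
      (((M.updateRow u (Pi.single u 1)).updateRow v (Pi.single v 1)).submatrix (Equiv.swap u v) id) := by
      ext i j
      by_cases hi : i = u
      · subst hi
        rw [Matrix.updateRow_self, Matrix.submatrix_apply, Equiv.swap_apply_left, Matrix.updateRow_self]
        rfl
      · rw [Matrix.updateRow_ne hi]
        by_cases hi2 : i = v
        · subst hi2
          rw [Matrix.updateRow_self, Matrix.submatrix_apply, Equiv.swap_apply_right,
            Matrix.updateRow_ne huv, Matrix.updateRow_self]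
          rfl
        · rw [Matrix.updateRow_ne hi2, Matrix.submatrix_apply, Equiv.swap_apply_of_ne_of_ne hi hi2,
            Matrix.updateRow_ne hi2, Matrix.updateRow_ne hi]
          rfl
    rw [this, Matrix.det_permute, Equiv.Perm.sign_swap huv]
    simp
  rw [h1, h2, h3, h4]
  have : M.adjugate u v + M.adjugate u v = 0 := CharTwo.add_self_eq_zero _
  linear_combination this

lemma add_diag_flip (B : Matrix (Option ι) (Option ι) (ZMod 2)) (u : ι) (s : ι → ZMod 2) :
    B + Matrix.diagonal (ext0 (flip u s)) =
      (B + Matrix.diagonal (ext0 s)).updateRow (some u)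
        ((B + Matrix.diagonal (ext0 s)) (some u) + Pi.single (some u) 1) := by
  ext i j
  by_cases hi : i = some u
  · subst hi
    rw [Matrix.updateRow_self]
    simp only [Matrix.add_apply, Pi.add_apply, Matrix.diagonal_apply, Pi.single_apply]
    by_cases hj : j = some u
    · subst hj
      simp [ext0, flip, add_assoc]
    · simp [hj, Ne.symm hj]
  · rw [Matrix.updateRow_ne hi]
    simp only [Matrix.add_apply, Matrix.diagonal_apply]
    by_cases hij : i = j
    · subst hij
      cases i with
      | none => rfl
      | some b =>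
        have hb : b ≠ u := by
          rintro rfl
          exact hi rfl
        simp [ext0, flip, hb]
    · simp [hij]

lemma g_flip (B : Matrix (Option ι) (Option ι) (ZMod 2)) (u : ι) (s : ι → ZMod 2) :
    g B (flip u s) = g B s +
      ((B + Matrix.diagonal (ext0 s)).updateRow (some u) (Pi.single (some u) 1)).det := by
  unfold g
  rw [add_diag_flip, Matrix.det_updateRow_add, Matrix.updateRow_eq_self]

lemma row_flip (B : Matrix (Option ι) (Option ι) (ZMod 2)) (u v : ι) (huv : u ≠ v) (s : ι → ZMod 2) :
    ((B + Matrix.diagonal (ext0 (flip v s))).updateRow (some u) (Pi.single (some u) 1)).det =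
    ((B + Matrix.diagonal (ext0 s)).updateRow (some u) (Pi.single (some u) 1)).det + al B u v s := by
  rw [add_diag_flip]
  have hsv : (some v : Option ι) ≠ some u := fun h => huv (Option.some_injective _ h).symm
  set M := B + Matrix.diagonal (ext0 s) with hM
  have e3 : (M.updateRow (some v) (M (some v) + Pi.single (some v) 1)).updateRow (some u) (Pi.single (some u) 1)
     = (M.updateRow (some u) (Pi.single (some u) 1)).updateRow (some v) (M (some v) + Pi.single (some v) 1) := by
    ext i j
    by_cases hi : i = some v
    · subst hi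
      rw [Matrix.updateRow_self, Matrix.updateRow_ne hsv, Matrix.updateRow_self]
    · rw [Matrix.updateRow_ne hi]
      by_cases hi2 : i = some u
      · subst hi2
        rw [Matrix.updateRow_self, Matrix.updateRow_self]
      · rw [Matrix.updateRow_ne hi2, Matrix.updateRow_ne hi2, Matrix.updateRow_ne hi]
  have e4 : (M.updateRow (some u) (Pi.single (some u) 1)).updateRow (some v) (M (some v)) =
      M.updateRow (some u) (Pi.single (some u) 1) := by
    ext i j
    by_cases hi : i = some v
    · subst hi
      rw [Matrix.updateRow_self, Matrix.updateRow_ne hsv]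
    · rw [Matrix.updateRow_ne hi]
  rw [e3, Matrix.det_updateRow_add, e4]
  rfl

lemma four_sum (B : Matrix (Option ι) (Option ι) (ZMod 2)) (u v : ι) (huv : u ≠ v) (s : ι → ZMod 2) :
    g B s + g B (flip u s) + g B (flip v s) + g B (flip u (flip v s)) = al B u v s := by
  rw [g_flip B u (flip v s), row_flip B u v huv, g_flip B u s]
  have h1 : g B s + g B s = 0 := CharTwo.add_self_eq_zero _
  have h2 : g B (flip v s) + g B (flip v s) = 0 := CharTwo.add_self_eq_zero _
  have h3 := CharTwo.add_self_eq_zero
    (((B + Matrix.diagonal (ext0 s)).updateRow (some u) (Pi.single (some u) 1)).det)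
  linear_combination h1 + h2 + h3

lemma al_flip_left (B : Matrix (Option ι) (Option ι) (ZMod 2)) (u v : ι) (huv : u ≠ v) (s : ι → ZMod 2) :
    al B u v (flip u s) = al B u v s := by
  have hsv : (some v : Option ι) ≠ some u := fun h => huv (Option.some_injective _ h).symm
  unfold al
  rw [add_diag_flip]
  congr 2
  ext i j
  by_cases hi2 : i = some u
  · subst hi2
    rw [Matrix.updateRow_self, Matrix.updateRow_self]
  · rw [Matrix.updateRow_ne hi2, Matrix.updateRow_ne hi2, Matrix.updateRow_ne hi2]

lemma al_flip_right (B : Matrix (Option ι) (Option ι) (ZMod 2)) (u v : ι) (huv : u ≠ v) (s : ι → ZMod 2) :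
    al B u v (flip v s) = al B u v s := by
  have hsv : (some v : Option ι) ≠ some u := fun h => huv (Option.some_injective _ h).symm
  unfold al
  rw [add_diag_flip]
  congr 1
  ext i j
  by_cases hi : i = some v
  · subst hi
    rw [Matrix.updateRow_self, Matrix.updateRow_self]
  · rw [Matrix.updateRow_ne hi, Matrix.updateRow_ne hi]
    by_cases hi2 : i = some u
    · subst hi2
      rw [Matrix.updateRow_self, Matrix.updateRow_self]
    · rw [Matrix.updateRow_ne hi2, Matrix.updateRow_ne hi2, Matrix.updateRow_ne hi]

/-- one-direction splitting of a sum over a flip-invariant set -/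
lemma split_sum (v : ι) (p : (ι → ZMod 2) → Prop) [DecidablePred p] (hp : ∀ s, p (flip v s) ↔ p s)
    (F : (ι → ZMod 2) → ZMod 2) :
    ∑ s with p s, F s = ∑ s with (p s ∧ s v = 0), (F s + F (flip v s)) := by
  rw [Finset.sum_add_distrib]
  have h1 : ∑ s with (p s ∧ s v = 0), F (flip v s) = ∑ s with (p s ∧ ¬ s v = 0), F s := by
    apply Finset.sum_nbij' (fun s => flip v s) (fun s => flip v s)
    · intro s hs
      simp only [Finset.mem_filter, Finset.mem_univ, true_and] at hs ⊢
      refine ⟨(hp s).mpr hs.1, ?_⟩
      simp [flip, hs.2]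
    · intro s hs
      simp only [Finset.mem_filter, Finset.mem_univ, true_and] at hs ⊢
      refine ⟨(hp s).mpr hs.1, ?_⟩
      have h := (zmod2_cases (s v)).resolve_left hs.2
      simp only [flip, Pi.add_apply, h, Pi.single_eq_same]
      decide
    · intro s _
      exact flip_flip v s
    · intro s _
      exact flip_flip v s
    · intro s _
      rfl
  rw [h1, ← Finset.sum_filter_add_sum_filter_not (Finset.univ.filter p) (fun s => s v = 0)]
  rw [Finset.filter_filter, Finset.filter_filter]

lemma two_dir (u v : ι) (huv : u ≠ v) (F : (ι → ZMod 2) → ZMod 2)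
    (hF : ∀ s, F s + F (flip u s) + F (flip v s) + F (flip u (flip v s)) = 0) : ∑ s, F s = 0 := by
  have h0 : ∑ s, F s = ∑ s with True, F s := by simp
  rw [h0, split_sum v (fun _ => True) (fun _ => Iff.rfl) F]
  have h1 := split_sum u (fun s => True ∧ s v = 0) (fun s => by simp [flip, huv.symm])
    (fun s => F s + F (flip v s))
  rw [h1]
  apply Finset.sum_eq_zero
  intro s _
  have hc : flip v (flip u s) = flip u (flip v s) := by
    ext i; simp only [flip, Pi.add_apply]; ring
  rw [hc]
  linear_combination hF s

/-- the signed count. -/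
def D (B : Matrix (Option ι) (Option ι) (ZMod 2)) : ℤ := ∑ s, sg s * lift (g B s)

lemma D_toggle (B : Matrix (Option ι) (Option ι) (ZMod 2)) (hB : B none none = 0) (hS : B.IsSymm)
    (u v : ι) (huv : u ≠ v) :
    (4 : ℤ) ∣ D (B + T (some u) (some v)) - D B := by
  have huv' : (some u : Option ι) ≠ some v := fun h => huv (Option.some_injective _ h)
  have hg : ∀ s, g (B + T (some u) (some v)) s = g B s + al B u v s := by
    intro s
    unfold g al T
    rw [add_right_comm]
    apply toggle_aux _ _ _ _ huv'
    exact hS.add (Matrix.isSymm_diagonal _)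
  have h1 : D (B + T (some u) (some v)) - D B
      = ∑ s, sg s * lift (al B u v s) - 2 * ∑ s, sg s * lift (al B u v s * g B s) := by
    unfold D
    rw [← Finset.sum_sub_distrib, Finset.mul_sum, ← Finset.sum_sub_distrib]
    apply Finset.sum_congr rfl
    intro s _
    rw [hg, ← mul_sub, lift_add, ← lift_mul]
    ring
  have h2 : ∑ s, sg s * lift (al B u v s) = 0 := by
    apply Finset.sum_involution (fun s _ => flip u s)
    · intro s _
      rw [al_flip_left B u v huv, sg_flip]; ring
    · intro s _ _
      exact flip_ne u s
    · intro s _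
      exact Finset.mem_univ _
    · intro s _
      exact flip_flip u s
  have h3 : (2 : ℤ) ∣ ∑ s, sg s * lift (al B u v s * g B s) := by
    have : (((∑ s, sg s * lift (al B u v s * g B s) : ℤ)) : ZMod 2) = 0 := by
      rw [Int.cast_sum]
      simp only [Int.cast_mul, cast_sg, cast_lift, one_mul]
      have hz : ∑ s, (1 + al B u v s) * g B s = 0 := by
        apply two_dir u v huv
        intro s
        rw [al_flip_left B u v huv s, al_flip_right B u v huv s, al_flip_left B u v huv,
          al_flip_right B u v huv s]
        have h4 := four_sum B u v huv s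
        have h5 : al B u v s * al B u v s = al B u v s := by
          rcases zmod2_cases (al B u v s) with h | h <;> rw [h] <;> decide
        have h6 := CharTwo.add_self_eq_zero (al B u v s)
        linear_combination (1 + al B u v s) * h4 + h5 + h6
      have hs := sum_g B hB
      have : ∑ s, (1 + al B u v s) * g B s = ∑ s, g B s + ∑ s, al B u v s * g B s := by
        rw [← Finset.sum_add_distrib]
        apply Finset.sum_congr rfl
        intro s _
        ring
      rw [hz, hs, zero_add] at this
      exact this.symm
    exact (ZMod.intCast_zmod_eq_zero_iff_dvd _ 2).mp this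
  rw [h1, h2]
  obtain ⟨k, hk⟩ := h3
  rw [hk]
  exact ⟨-k, by ring⟩

/-- the matrix `L` bordered by ones, with corner entry zero. -/
def bord (L : Matrix ι ι (ZMod 2)) : Matrix (Option ι) (Option ι) (ZMod 2) := fun i j =>
  match i, j with
  | some a, some b => L a b
  | some _, none => 1
  | none, some _ => 1
  | none, none => 0

lemma bord_symm (L : Matrix ι ι (ZMod 2)) (hL : L.IsSymm) : (bord L).IsSymm := by
  ext i j
  cases i <;> cases j <;> simp [bord, Matrix.transpose_apply]
  exact hL.apply _ _

lemma bord_toggle (L : Matrix ι ι (ZMod 2)) (u v : ι) :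
    bord (L + (Matrix.single u v 1 + Matrix.single v u 1)) = bord L + T (some u) (some v) := by
  ext i j
  cases i <;> cases j <;> simp [bord, T, Matrix.single_apply]

/-- the symmetric matrix with off-diagonal support given by a set of pairs. -/
def LP (P : Finset (ι × ι)) : Matrix ι ι (ZMod 2) :=
  ∑ p ∈ P, (Matrix.single p.1 p.2 1 + Matrix.single p.2 p.1 1)

lemma LP_symm (P : Finset (ι × ι)) : (LP P).IsSymm := by
  unfold LP
  rw [Matrix.IsSymm, Matrix.transpose_sum]
  apply Finset.sum_congr rfl
  intro p _
  rw [Matrix.transpose_add, Matrix.transpose_single, Matrix.transpose_single, add_comm]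

lemma D_LP (P : Finset (ι × ι)) (hP : ∀ p ∈ P, p.1 ≠ p.2) :
    (4 : ℤ) ∣ D (bord (LP P)) - D (bord (0 : Matrix ι ι (ZMod 2))) := by
  induction P using Finset.induction_on with
  | empty => simp [LP]
  | insert p P hp ih =>
    have h1 : LP (insert p P) = LP P + (Matrix.single p.1 p.2 1 + Matrix.single p.2 p.1 1) := by
      unfold LP
      rw [Finset.sum_insert hp, add_comm]
    rw [h1, bord_toggle]
    have h2 := D_toggle (bord (LP P)) rfl (bord_symm _ (LP_symm P)) p.1 p.2
      (hP p (Finset.mem_insert_self _ _))
    have h3 := ih (fun q hq => hP q (Finset.mem_insert_of_mem hq))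
    have h4 := dvd_add h2 h3
    rw [sub_add_sub_cancel] at h4
    exact h4

/-- determinant of the bordered diagonal matrix: two zeros. -/
lemma g0_two (s : ι → ZMod 2) (i j : ι) (hij : i ≠ j) (hi : s i = 0) (hj : s j = 0) :
    g (bord (0 : Matrix ι ι (ZMod 2))) s = 0 := by
  unfold g
  rw [← Matrix.exists_mulVec_eq_zero_iff]
  refine ⟨ext0 (Pi.single i 1 + Pi.single j 1), ?_, ?_⟩
  · intro h
    have := congrFun h (some i)
    simp [ext0, hij] at this
  · ext o
    cases o with
    | none =>
      simp [Matrix.mulVec, dotProduct, bord, ext0, Fintype.sum_option, Finset.sum_add_distrib]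
      decide
    | some k =>
      simp only [Matrix.mulVec, dotProduct, Fintype.sum_option, Matrix.add_apply, bord,
        Matrix.diagonal_apply, ext0, Option.elim, Matrix.zero_apply, zero_add, Pi.zero_apply,
        mul_zero]
      apply Finset.sum_eq_zero
      intro m _
      by_cases hkm : k = m
      · subst hkm
        by_cases h1 : k = i
        · subst h1; simp [hi]
        · by_cases h2 : k = j
          · subst h2; simp [hj]
          · simp [h1, h2]
      · simp [hkm]

lemma mulVec_bord_some (L : Matrix ι ι (ZMod 2)) (s : ι → ZMod 2) (z : Option ι → ZMod 2) (k : ι) :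
    ((bord L + Matrix.diagonal (ext0 s)) *ᵥ z) (some k) = z none + ∑ m, L k m * z (some m) + s k * z (some k) := by
  simp only [Matrix.mulVec, dotProduct, Fintype.sum_option, Matrix.add_apply, bord,
        Matrix.diagonal_apply, ext0, Option.elim, add_mul]
  rw [Finset.sum_add_distrib]
  simp [add_assoc]

lemma mulVec_bord_none (L : Matrix ι ι (ZMod 2)) (s : ι → ZMod 2) (z : Option ι → ZMod 2) :
    ((bord L + Matrix.diagonal (ext0 s)) *ᵥ z) none = ∑ m, z (some m) := by
  simp [Matrix.mulVec, dotProduct, Fintype.sum_option, Matrix.add_apply, bord,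
        Matrix.diagonal_apply, ext0]

lemma g_eq_one_of (B : Matrix (Option ι) (Option ι) (ZMod 2)) (s : ι → ZMod 2)
    (h : ∀ z : Option ι → ZMod 2, (B + Matrix.diagonal (ext0 s)) *ᵥ z = 0 → z = 0) : g B s = 1 := by
  rcases zmod2_cases (g B s) with h0 | h1
  · exfalso
    unfold g at h0
    rw [← Matrix.exists_mulVec_eq_zero_iff] at h0
    obtain ⟨z, hz, hz2⟩ := h0
    exact hz (h z hz2)
  · exact h1

lemma D_zero (hn : Odd (Fintype.card ι)) :
    D (bord (0 : Matrix ι ι (ZMod 2))) = Fintype.card ι - 1 := by
  classical
  have hcard : ((Fintype.card ι : ℕ) : ZMod 2) = 1 := by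
    rw [ZMod.natCast_eq_one_iff_odd]; exact hn
  -- value at the all-ones vector
  have hone : g (bord (0 : Matrix ι ι (ZMod 2))) (fun _ => 1) = 1 := by
    apply g_eq_one_of
    intro z hz
    have h1 : ∀ k, z (some k) = z none := by
      intro k
      have := congrFun hz (some k)
      rw [mulVec_bord_some] at this
      simp only [Matrix.zero_apply, zero_mul, Finset.sum_const_zero, add_zero, one_mul,
        Pi.zero_apply] at this
      exact (CharTwo.add_eq_zero.mp this).symm
    have h2 := congrFun hz none
    rw [mulVec_bord_none] at h2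
    simp only [h1, Finset.sum_const, Finset.card_univ, Pi.zero_apply, nsmul_eq_mul, hcard,
      one_mul] at h2
    ext o
    cases o with
    | none => exact h2
    | some k => rw [h1, h2]; rfl
  have hflip : ∀ i, g (bord (0 : Matrix ι ι (ZMod 2))) (flip i (fun _ => 1)) = 1 := by
    intro i
    have hval : ∀ k, flip i (fun _ => (1 : ZMod 2)) k = if k = i then 0 else 1 := by
      intro k
      by_cases h : k = i
      · subst h
        simp only [flip, Pi.add_apply, Pi.single_eq_same, if_true]
        decide
      · simp [flip, h]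
    apply g_eq_one_of
    intro z hz
    have hc : z none = 0 := by
      have := congrFun hz (some i)
      rw [mulVec_bord_some, hval] at this
      simpa using this
    have h1 : ∀ k, k ≠ i → z (some k) = 0 := by
      intro k hk
      have := congrFun hz (some k)
      rw [mulVec_bord_some, hval] at this
      simpa [hk, hc] using this
    have h2 := congrFun hz none
    rw [mulVec_bord_none, Finset.sum_eq_single i (fun k _ hk => h1 k hk) (by simp)] at h2
    ext o
    cases o with
    | none => exact hc
    | some k =>
      by_cases hk : k = i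
      · subst hk; exact h2
      · exact h1 k hk
  have hinj : Function.Injective (fun i : ι => flip i (fun _ => (1 : ZMod 2))) := by
    intro i j hij
    by_contra hne
    have := congrFun hij i
    simp [flip, hne] at this
  have hsupp : D (bord (0 : Matrix ι ι (ZMod 2))) =
      ∑ s ∈ insert (fun _ => (1 : ZMod 2)) (Finset.univ.image (fun i : ι => flip i (fun _ => (1 : ZMod 2)))),
        sg s * lift (g (bord (0 : Matrix ι ι (ZMod 2))) s) := by
    unfold D
    symm
    apply Finset.sum_subset (Finset.subset_univ _)
    intro s _ hs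
    simp only [Finset.mem_insert, Finset.mem_image, Finset.mem_univ, true_and, not_or,
      not_exists] at hs
    have h1 : ∃ i, s i = 0 := by
      by_contra hcon
      push Not at hcon
      apply hs.1
      ext i
      exact (zmod2_cases (s i)).resolve_left (hcon i)
    obtain ⟨i, hi⟩ := h1
    have h2 : ∃ j, j ≠ i ∧ s j = 0 := by
      by_contra hcon
      push Not at hcon
      apply hs.2 i
      ext k
      by_cases hk : k = i
      · subst hk
        simp only [flip, Pi.add_apply, Pi.single_eq_same, hi]
        decide
      · rw [(zmod2_cases (s k)).resolve_left (hcon k hk)]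
        simp [flip, hk]
    obtain ⟨j, hji, hj⟩ := h2
    rw [g0_two s i j (Ne.symm hji) hi hj]
    simp [lift]
  rw [hsupp, Finset.sum_insert, Finset.sum_image (fun a _ b _ hab => hinj hab)]
  · rw [hone]
    simp only [hflip, sg_flip]
    have h1 : sg (fun _ : ι => (1 : ZMod 2)) = -1 := by
      unfold sg
      simp [hn.neg_one_pow]
    rw [h1]
    have h2 : lift (1 : ZMod 2) = 1 := by decide
    simp only [h2, neg_neg, mul_one, Finset.sum_const, Finset.card_univ, nsmul_eq_mul]
    ring
  · simp only [Finset.mem_image, Finset.mem_univ, true_and, not_exists]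
    intro i hi
    exact flip_ne i _ hi

/-- number of kernel vectors -/
def kc {κ : Type*} [Fintype κ] [DecidableEq κ] (M : Matrix κ κ (ZMod 2)) : ℤ :=
  ((Finset.univ.filter (fun z : κ → ZMod 2 => M *ᵥ z = 0)).card : ℤ)

lemma kc_sq {κ : Type*} [Fintype κ] [DecidableEq κ] (M : Matrix κ κ (ZMod 2)) :
    (4 : ℤ) ∣ kc M ^ 2 - lift M.det := by
  rcases zmod2_cases M.det with h | h
  · obtain ⟨v, hv, hMv⟩ := Matrix.exists_mulVec_eq_zero_iff.mpr h
    have heven : (2 : ℤ) ∣ kc M := by
      have h1 : ((kc M : ℤ) : ZMod 2) = 0 := by
        unfold kc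
        rw [Int.cast_natCast, Finset.cast_card]
        apply Finset.sum_involution (fun z _ => z + v)
        · intro z _
          decide
        · intro z _ _ hzv
          exact hv (by simpa using hzv)
        · intro z hz
          simp only [Finset.mem_filter, Finset.mem_univ, true_and] at hz ⊢
          rw [Matrix.mulVec_add, hz, hMv, add_zero]
        · intro z _
          ext i
          simp only [Pi.add_apply, add_assoc, CharTwo.add_self_eq_zero, add_zero]
      exact (ZMod.intCast_zmod_eq_zero_iff_dvd _ 2).mp h1
    obtain ⟨k, hk⟩ := heven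
    rw [h, hk]
    exact ⟨k ^ 2, by simp [lift]; ring⟩
  · have h1 : Finset.univ.filter (fun z : κ → ZMod 2 => M *ᵥ z = 0) = {0} := by
      ext z
      simp only [Finset.mem_filter, Finset.mem_univ, true_and, Finset.mem_singleton]
      constructor
      · intro hz
        by_contra hne
        have := Matrix.exists_mulVec_eq_zero_iff.mp ⟨z, hne, hz⟩
        rw [h] at this
        exact one_ne_zero this
      · rintro rfl
        exact Matrix.mulVec_zero _
    have h2 : kc M = 1 := by
      unfold kc
      rw [h1]; simp
    rw [h, h2]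
    have h3 : lift (1 : ZMod 2) = 1 := by decide
    rw [h3]
    norm_num

/-- if no pair of kernel vectors has full support then the signed count of pairs vanishes. -/
lemma Z_zero (B : Matrix (Option ι) (Option ι) (ZMod 2))
    (hno : ∀ (s : ι → ZMod 2) (z z' : Option ι → ZMod 2),
      (B + Matrix.diagonal (ext0 s)) *ᵥ z = 0 → (B + Matrix.diagonal (ext0 s)) *ᵥ z' = 0 →
        ∃ i, z (some i) = 0 ∧ z' (some i) = 0) :
    ∑ s, sg s * kc (B + Matrix.diagonal (ext0 s)) ^ 2 = 0 := by
  classical
  have h1 : ∀ s : ι → ZMod 2, kc (B + Matrix.diagonal (ext0 s)) ^ 2 =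
      ∑ z : Option ι → ZMod 2, ∑ z' : Option ι → ZMod 2,
        (if ((B + Matrix.diagonal (ext0 s)) *ᵥ z = 0 ∧ (B + Matrix.diagonal (ext0 s)) *ᵥ z' = 0)
          then (1 : ℤ) else 0) := by
    intro s
    unfold kc
    rw [sq, Finset.card_filter, Nat.cast_sum, Finset.sum_mul_sum]
    apply Finset.sum_congr rfl
    intro z _
    apply Finset.sum_congr rfl
    intro z' _
    by_cases hz : (B + Matrix.diagonal (ext0 s)) *ᵥ z = 0 <;>
    by_cases hz' : (B + Matrix.diagonal (ext0 s)) *ᵥ z' = 0 <;> simp [hz, hz']
  simp only [h1, Finset.mul_sum]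
  rw [Finset.sum_comm]
  apply Finset.sum_eq_zero
  intro z _
  rw [Finset.sum_comm]
  apply Finset.sum_eq_zero
  intro z' _
  by_cases hfull : ∃ i, z (some i) = 0 ∧ z' (some i) = 0
  · obtain ⟨i, hi, hi'⟩ := hfull
    have hinv : ∀ (s : ι → ZMod 2) (w : Option ι → ZMod 2), w (some i) = 0 →
        (B + Matrix.diagonal (ext0 (flip i s))) *ᵥ w = (B + Matrix.diagonal (ext0 s)) *ᵥ w := by
      intro s w hw
      rw [Matrix.add_mulVec, Matrix.add_mulVec]
      congr 1
      ext o
      rw [Matrix.mulVec_diagonal, Matrix.mulVec_diagonal]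
      cases o with
      | none => rfl
      | some k =>
        by_cases hk : k = i
        · subst hk; rw [hw, mul_zero, mul_zero]
        · simp [ext0, flip, hk]
    apply Finset.sum_involution (fun s _ => flip i s)
    · intro s _
      rw [sg_flip, hinv s z hi, hinv s z' hi']
      ring
    · intro s _ _
      exact flip_ne i s
    · intro s _
      exact Finset.mem_univ _
    · intro s _
      exact flip_flip i s
  · apply Finset.sum_eq_zero
    intro s _
    rw [if_neg, mul_zero]
    rintro ⟨h2, h3⟩
    exact hfull (hno s z z' h2 h3)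

/-- Main linear algebra statement. -/
theorem exists_full_pair_of_odd (P : Finset (ι × ι)) (hP : ∀ p ∈ P, p.1 ≠ p.2)
    (hn : Fintype.card ι % 4 = 3) :
    ∃ (s : ι → ZMod 2) (z z' : Option ι → ZMod 2),
      (bord (LP P) + Matrix.diagonal (ext0 s)) *ᵥ z = 0 ∧
      (bord (LP P) + Matrix.diagonal (ext0 s)) *ᵥ z' = 0 ∧
      ∀ i, z (some i) ≠ 0 ∨ z' (some i) ≠ 0 := by
  by_contra hcon
  push Not at hcon
  have hno : ∀ (s : ι → ZMod 2) (z z' : Option ι → ZMod 2),
      (bord (LP P) + Matrix.diagonal (ext0 s)) *ᵥ z = 0 →
      (bord (LP P) + Matrix.diagonal (ext0 s)) *ᵥ z' = 0 →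
        ∃ i, z (some i) = 0 ∧ z' (some i) = 0 := fun s z z' h1 h2 => hcon s z z' h1 h2
  have hZ := Z_zero (bord (LP P)) hno
  have h1 : (4 : ℤ) ∣ (∑ s, sg s * kc (bord (LP P) + Matrix.diagonal (ext0 s)) ^ 2) - D (bord (LP P)) := by
    unfold D
    rw [← Finset.sum_sub_distrib]
    apply Finset.dvd_sum
    intro s _
    rw [← mul_sub]
    exact dvd_mul_of_dvd_right (kc_sq _) _
  have h2 := D_LP P hP
  have hodd : Odd (Fintype.card ι) := by
    rw [Nat.odd_iff]; omega
  rw [D_zero hodd] at h2
  rw [hZ] at h1
  omega

end Pool.Agent.H36.ParityLA
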